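import Mathlib

set_option autoImplicit false

open Set Topology TopologicalSpace

namespace Pool.Agent.Results.MP_6b7ad2_lc.Gdelta

variable {G X : Type} [Group G] [MulAction G X]

/-- the `(U, V)`-local graph -/
def Loc (U : Set X) (V : Set G) (x y : X) : Prop := x ∈ U ∧ y ∈ U ∧ ∃ g ∈ V, g • x = y

/-- the local orbit: the points reachable from `x` in the `(U, V)`-local graph -/
def locOrbit (x : X) (U : Set X) (V : Set G) : Set X := {y | Relation.ReflTransGen (Loc U V) x y}

/-- `x` is turbulent: for every open `U ∋ x` and every symmetric open neighbourhood `V` of the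
identity, the closure of the local orbit has nonempty interior -/
def Turbulent (G : Type) [Group G] [TopologicalSpace G] [MulAction G X] [TopologicalSpace X]
    (x : X) : Prop :=
  ∀ U : Set X, IsOpen U → x ∈ U → ∀ V : Set G, IsOpen V → (1 : G) ∈ V → (∀ g ∈ V, g⁻¹ ∈ V) →
    (interior (closure (locOrbit x U V))).Nonempty

theorem loc_symm {U : Set X} {V : Set G} (hV : ∀ g ∈ V, g⁻¹ ∈ V) {x y : X} (h : Loc U V x y) :
    Loc U V y x := by
  obtain ⟨a, b, g, hg, rfl⟩ := h
  exact ⟨b, a, g⁻¹, hV g hg, inv_smul_smul g x⟩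

theorem orb_symm {U : Set X} {V : Set G} (hV : ∀ g ∈ V, g⁻¹ ∈ V) {x y : X}
    (h : y ∈ locOrbit x U V) : x ∈ locOrbit y U V := by
  induction h with
  | refl => exact Relation.ReflTransGen.refl
  | tail _ h ih => exact Relation.ReflTransGen.head (loc_symm hV h) ih

theorem orb_mono {U U' : Set X} {V V' : Set G} (hU : U ⊆ U') (hV : V ⊆ V') (x : X) :
    locOrbit x U V ⊆ locOrbit x U' V' := by
  intro y h
  induction h with
  | refl => exact Relation.ReflTransGen.refl
  | tail _ h ih =>
    obtain ⟨a, b, g, hg, e⟩ := h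
    exact Relation.ReflTransGen.tail ih ⟨hU a, hU b, g, hV hg, e⟩

variable [TopologicalSpace X] [ContinuousConstSMul G X]

theorem step_closure {U : Set X} (hU : IsOpen U) {V : Set G} {x z w : X}
    (hz : z ∈ closure (locOrbit x U V)) (h : Loc U V z w) : w ∈ closure (locOrbit x U V) := by
  obtain ⟨a, b, g, hg, rfl⟩ := h
  have hc : Continuous fun y : X => g • y := continuous_const_smul g
  have ho : IsOpen (U ∩ (fun y : X => g • y) ⁻¹' U) := hU.inter (hU.preimage hc)
  have h1 : z ∈ closure ((U ∩ (fun y : X => g • y) ⁻¹' U) ∩ locOrbit x U V) :=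
    ho.inter_closure ⟨⟨a, b⟩, hz⟩
  refine map_mem_closure hc h1 ?_
  rintro y ⟨⟨y1, y2⟩, y3⟩
  exact Relation.ReflTransGen.tail y3 ⟨y1, y2, g, hg, rfl⟩

theorem orb_sub_closure {U : Set X} (hU : IsOpen U) {V : Set G} {x z : X}
    (hz : z ∈ closure (locOrbit x U V)) : locOrbit z U V ⊆ closure (locOrbit x U V) := by
  intro w hw
  induction hw with
  | refl => exact hz
  | tail _ h ih => exact step_closure hU ih h

theorem step_interior {U : Set X} (hU : IsOpen U) {V : Set G} (hV : ∀ g ∈ V, g⁻¹ ∈ V) {x z w : X}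
    (hz : z ∈ interior (closure (locOrbit x U V))) (h : Loc U V z w) :
    w ∈ interior (closure (locOrbit x U V)) := by
  obtain ⟨a, b, g, hg, rfl⟩ := h
  have hc : Continuous fun y : X => g⁻¹ • y := continuous_const_smul g⁻¹
  refine mem_interior.2 ⟨U ∩ (fun y : X => g⁻¹ • y) ⁻¹' (U ∩ interior (closure (locOrbit x U V))),
    ?_, hU.inter ((hU.inter isOpen_interior).preimage hc), b, ?_⟩
  · rintro y ⟨y1, y2, y3⟩
    exact step_closure hU (interior_subset y3) ⟨y2, y1, g, hg, smul_inv_smul g y⟩
  · simp only [mem_preimage, inv_smul_smul]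
    exact ⟨a, hz⟩

theorem meets {s t : Set X} (ht : IsOpen t) (h : (t ∩ closure s).Nonempty) : (t ∩ s).Nonempty := by
  obtain ⟨y, hy⟩ := h
  exact closure_nonempty_iff.1 ⟨y, ht.inter_closure hy⟩

theorem self_mem {U : Set X} (hU : IsOpen U) {V : Set G} (hV : ∀ g ∈ V, g⁻¹ ∈ V) {x : X}
    (h : (interior (closure (locOrbit x U V))).Nonempty) :
    x ∈ interior (closure (locOrbit x U V)) := by
  obtain ⟨y, hy⟩ := h
  obtain ⟨z, hz1, hz2⟩ := meets isOpen_interior ⟨y, hy, interior_subset hy⟩
  have : ∀ w ∈ locOrbit z U V, w ∈ interior (closure (locOrbit x U V)) := by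
    intro w hw
    induction hw with
    | refl => exact hz1
    | tail _ h ih => exact step_interior hU hV ih h
  exact this x (orb_symm hV hz2)

theorem closure_sub {U : Set X} (hU : IsOpen U) {V : Set G} (hV : ∀ g ∈ V, g⁻¹ ∈ V) {x y z : X}
    (hx : z ∈ interior (closure (locOrbit x U V))) (hy : z ∈ interior (closure (locOrbit y U V))) :
    closure (locOrbit y U V) ⊆ closure (locOrbit x U V) := by
  obtain ⟨w, hw1, hw2⟩ := meets isOpen_interior ⟨z, hx, interior_subset hy⟩
  refine closure_minimal (fun v hv => ?_) isClosed_closure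
  exact orb_sub_closure hU (interior_subset hw1)
    (Relation.ReflTransGen.trans (orb_symm hV hw2) hv)

theorem isOpen_hits {U : Set X} (hU : IsOpen U) (V : Set G) {W : Set X} (hW : IsOpen W) :
    IsOpen {x | (W ∩ locOrbit x U V).Nonempty} := by
  rw [isOpen_iff_mem_nhds]
  rintro x ⟨y, hyW, hy⟩
  induction hy using Relation.ReflTransGen.head_induction_on with
  | refl =>
    filter_upwards [hW.mem_nhds hyW] with z hz using ⟨z, hz, Relation.ReflTransGen.refl⟩
  | head h _ ih =>
    obtain ⟨a, b, g, hg, rfl⟩ := h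
    have hc : Continuous fun y : X => g • y := continuous_const_smul g
    filter_upwards [hU.mem_nhds a, hc.continuousAt.preimage_mem_nhds (hU.mem_nhds b),
      hc.continuousAt.preimage_mem_nhds ih] with z z1 z2 z3
    obtain ⟨w, w1, w2⟩ := z3
    exact ⟨w, w1, Relation.ReflTransGen.head ⟨z1, z2, g, hg, rfl⟩ w2⟩

theorem good_Gdelta [SecondCountableTopology X] {U : Set X} (hU : IsOpen U) {V : Set G}
    (hV : ∀ g ∈ V, g⁻¹ ∈ V) : IsGδ {x | (interior (closure (locOrbit x U V))).Nonempty} := by
  have key : {x | (interior (closure (locOrbit x U V))).Nonempty} =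
      (⋃ y, interior (closure (locOrbit y U V))) ∩ ⋂ W ∈ countableBasis X,
        ⋃ y, interior (closure (locOrbit y U V)) ∩
          {x | W ⊆ closure (locOrbit y U V) → (W ∩ locOrbit x U V).Nonempty} := by
    ext x
    simp only [mem_inter_iff, mem_iUnion, mem_iInter, mem_ofPred_eq]
    constructor
    · intro h
      refine ⟨⟨x, self_mem hU hV h⟩, fun W hW => ⟨x, self_mem hU hV h, fun hs => ?_⟩⟩
      obtain ⟨w, hw⟩ := nonempty_of_mem_countableBasis hW
      exact meets (isOpen_of_mem_countableBasis hW) ⟨w, hw, hs hw⟩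
    · rintro ⟨⟨y, hy⟩, h⟩
      refine ⟨x, interior_maximal (fun z hz => ?_) isOpen_interior hy⟩
      rw [mem_closure_iff]
      intro o ho hzo
      obtain ⟨W, hW, hzW, hWs⟩ := (isBasis_countableBasis X).exists_subset_of_mem_open
        (mem_inter hzo hz) (ho.inter isOpen_interior)
      obtain ⟨y', hy', h'⟩ := h W hW
      obtain ⟨w, w1, w2⟩ := h' fun v hv => closure_sub hU hV hy' hy (interior_subset (hWs hv).2)
      exact ⟨w, (hWs w1).1, w2⟩
  rw [key]
  refine (isOpen_iUnion fun y => isOpen_interior).isGδ.inter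
    (IsGδ.biInter (countable_countableBasis X) fun W hW => IsOpen.isGδ ?_)
  refine isOpen_iUnion fun y => isOpen_interior.inter ?_
  by_cases hs : W ⊆ closure (locOrbit y U V)
  · simpa [hs] using isOpen_hits hU V (isOpen_of_mem_countableBasis hW)
  · simp [hs]

/-- The set of turbulent points of a Polish `G`-space is `G_δ`. -/
theorem result (G X : Type) [Group G] [TopologicalSpace G] [IsTopologicalGroup G] [PolishSpace G]
    [TopologicalSpace X] [PolishSpace X] [MulAction G X] [ContinuousSMul G X] :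
    IsGδ {x : X | Turbulent G x} := by
  have key : {x : X | Turbulent G x} = ⋂ U ∈ countableBasis X,
      ⋂ B ∈ {B ∈ countableBasis G | (1 : G) ∈ B},
        (Uᶜ ∪ {x | (interior (closure (locOrbit x U (B ∩ B⁻¹)))).Nonempty}) := by
    ext x
    simp only [mem_iInter, mem_union, mem_compl_iff, mem_ofPred_eq]
    constructor
    · intro h U hU B hB
      by_cases hx : x ∈ U
      · have ho := isOpen_of_mem_countableBasis hB.1
        exact Or.inr (h U (isOpen_of_mem_countableBasis hU) hx _ (ho.inter ho.inv)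
          ⟨hB.2, by simpa using hB.2⟩ fun g hg => ⟨hg.2, by simpa using hg.1⟩)
      · exact Or.inl hx
    · intro h U hU hx V hV h1 _
      obtain ⟨U', hU', hx', hs⟩ := (isBasis_countableBasis X).exists_subset_of_mem_open hx hU
      obtain ⟨B, hB, h1', hs'⟩ := (isBasis_countableBasis G).exists_subset_of_mem_open h1 hV
      exact ((h U' hU' B ⟨hB, h1'⟩).resolve_left fun hn => hn hx').mono
        (interior_mono (closure_mono (orb_mono hs (inter_subset_left.trans hs') x)))
  rw [key]
  refine IsGδ.biInter (countable_countableBasis X) fun U hU =>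
    IsGδ.biInter ((countable_countableBasis G).mono (sep_subset _ _)) fun B _ => ?_
  have ho := isOpen_of_mem_countableBasis hU
  exact ho.isClosed_compl.isGδ.union
    (good_Gdelta ho fun g hg => ⟨hg.2, by simpa using hg.1⟩)

end Pool.Agent.Results.MP_6b7ad2_lc.Gdelta
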